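import Mathlib

namespace Pool.Agent.Results.MP_8d002f_nt.Solutions

theorem result : ∀ k ∈ ({7, 14, 37} : Set ℤ), ∃ a d r : ℤ, 1 ≤ a ∧ 1 ≤ d ∧ 1 ≤ r ∧
    ((a * (a + d) * (a + 2 * d) * (a + 3 * d) : ℤ) : ℚ)
      = (1 / 2 : ℚ) * r * ((k - 2) * r - (k - 4)) := by
  intro k hk
  simp only [Set.mem_insert_iff, Set.mem_singleton_iff] at hk
  rcases hk with rfl | rfl | rfl
  · exact ⟨18, 1, 240, by norm_num, by norm_num, by norm_num, by norm_num⟩
  · exact ⟨129, 7, 7920, by norm_num, by norm_num, by norm_num, by norm_num⟩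
  · exact ⟨69, 748, 107985, by norm_num, by norm_num, by norm_num, by norm_num⟩

end Pool.Agent.Results.MP_8d002f_nt.Solutions
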